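import Pool.Agent.Helper22.TB.Goals

/-!
# Project TB (MP_74f661_nt), packet SIG: the local functions as nonnegative combinations of cosines
-/

set_option autoImplicit false

open Finset Filter Topology
open scoped Classical

namespace Pool.Agent.Helper13.TB

open Pool.Agent.Helper22.TB

/-- Orthogonality of the characters modulo `p`. -/
theorem cos_sum (p : ℕ) (hp : 0 < p) (x : ℤ) :
    ∑ a ∈ range p, Real.cos (2 * Real.pi * a * x / p) = if (p : ℤ) ∣ x then (p : ℝ) else 0 := by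
  have hp' : (p : ℝ) ≠ 0 := by positivity
  have hpc : (p : ℂ) ≠ 0 := by exact_mod_cast hp.ne'
  by_cases h : (p : ℤ) ∣ x
  · rw [if_pos h]
    obtain ⟨k, rfl⟩ := h
    have e : ∀ a ∈ range p, Real.cos (2 * Real.pi * a * ((p : ℤ) * k : ℤ) / p) = 1 := by
      intro a _
      have e1 : 2 * Real.pi * a * ((p : ℤ) * k : ℤ) / p = ((a * k : ℤ) : ℝ) * (2 * Real.pi) := by
        push_cast
        field_simp
      rw [e1, Real.cos_int_mul_two_pi]
    rw [sum_congr rfl e, sum_const, card_range, nsmul_eq_mul, mul_one]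
  · rw [if_neg h]
    set z : ℂ := Complex.exp (2 * Real.pi * Complex.I * x / p) with hz
    have hz1 : z ≠ 1 := by
      intro hz1
      rw [hz, Complex.exp_eq_one_iff] at hz1
      obtain ⟨n, hn⟩ := hz1
      apply h
      have h2 : (2 * Real.pi * Complex.I : ℂ) ≠ 0 := Complex.two_pi_I_ne_zero
      have h3 : (x : ℂ) = n * p := by
        have h4 : (2 * Real.pi * Complex.I : ℂ) * (x / p) = (2 * Real.pi * Complex.I) * n := by
          rw [← mul_div_assoc, hn]
          ring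
        have h5 := mul_left_cancel₀ h2 h4
        field_simp at h5
        rw [h5, mul_comm]
      have h6 : x = n * p := by exact_mod_cast h3
      exact ⟨n, by rw [h6]; ring⟩
    have hzp : z ^ p = 1 := by
      rw [hz, ← Complex.exp_nat_mul, Complex.exp_eq_one_iff]
      exact ⟨x, by field_simp⟩
    have hsum : ∑ a ∈ range p, z ^ a = 0 := by
      have h7 := mul_geom_sum z p
      rw [hzp, sub_self] at h7
      exact (mul_eq_zero.mp h7).resolve_left (sub_ne_zero.mpr hz1)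
    have e : ∀ a ∈ range p, Real.cos (2 * Real.pi * a * x / p) = (z ^ a).re := by
      intro a _
      rw [hz, ← Complex.exp_nat_mul]
      have e1 : (a : ℂ) * (2 * Real.pi * Complex.I * x / p) =
          ((2 * Real.pi * a * x / p : ℝ) : ℂ) * Complex.I := by
        push_cast
        ring
      rw [e1, Complex.exp_ofReal_mul_I_re]
    rw [sum_congr rfl e, ← Complex.re_sum, hsum, Complex.zero_re]

/-- The coefficients. -/
noncomputable def cf (p : ℕ) (b : ℤ) (a : ℕ) : ℝ :=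
  if a = 0 then 0 else (2 + 2 * Real.cos (2 * Real.pi * a * b / p)) / ((p : ℝ) - 2) ^ 2

theorem cf_nonneg (p : ℕ) (b : ℤ) (a : ℕ) : 0 ≤ cf p b a := by
  unfold cf
  split_ifs
  · exact le_rfl
  · have := Real.neg_one_le_cos (2 * Real.pi * a * b / p)
    apply div_nonneg _ (sq_nonneg _)
    linarith

theorem cf_le (p : ℕ) (b : ℤ) (a : ℕ) : cf p b a ≤ 4 / ((p : ℝ) - 2) ^ 2 := by
  unfold cf
  split_ifs
  · exact div_nonneg (by norm_num) (sq_nonneg _)
  · have := Real.cos_le_one (2 * Real.pi * a * b / p)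
    apply div_le_div_of_nonneg_right _ (sq_nonneg _)
    linarith

theorem sum_cf (p : ℕ) (hp : 0 < p) (b : ℤ) (g : ℕ) :
    ∑ a ∈ range p, cf p b a * Real.cos (2 * Real.pi * a * g / p) =
      (2 * (if (p : ℤ) ∣ (g : ℤ) then (p : ℝ) else 0) +
        (if (p : ℤ) ∣ (g : ℤ) + b then (p : ℝ) else 0) +
        (if (p : ℤ) ∣ (g : ℤ) - b then (p : ℝ) else 0) - 4) / ((p : ℝ) - 2) ^ 2 := by
  have e : ∀ a ∈ range p, cf p b a * Real.cos (2 * Real.pi * a * g / p) =
      (2 * Real.cos (2 * Real.pi * a * ((g : ℤ) : ℝ) / p) +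
        Real.cos (2 * Real.pi * a * (((g : ℤ) + b : ℤ) : ℝ) / p) +
        Real.cos (2 * Real.pi * a * (((g : ℤ) - b : ℤ) : ℝ) / p)) / ((p : ℝ) - 2) ^ 2 -
      (if a = 0 then 4 / ((p : ℝ) - 2) ^ 2 else 0) := by
    intro a _
    by_cases ha : a = 0
    · subst ha
      simp only [cf, if_true, Nat.cast_zero, mul_zero, zero_mul, zero_div, Real.cos_zero]
      ring
    · simp only [cf, if_neg ha]
      have e1 : 2 * Real.pi * a * (((g : ℤ) + b : ℤ) : ℝ) / p =
          2 * Real.pi * a * ((g : ℤ) : ℝ) / p + 2 * Real.pi * a * b / p := by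
        push_cast
        ring
      have e2 : 2 * Real.pi * a * (((g : ℤ) - b : ℤ) : ℝ) / p =
          2 * Real.pi * a * ((g : ℤ) : ℝ) / p - 2 * Real.pi * a * b / p := by
        push_cast
        ring
      have e3 : ((g : ℤ) : ℝ) = (g : ℝ) := Int.cast_natCast g
      rw [e1, e2, Real.cos_add, Real.cos_sub, e3]
      ring
  rw [sum_congr rfl e, sum_sub_distrib, ← sum_div, sum_add_distrib, sum_add_distrib, ← mul_sum,
    cos_sum p hp, cos_sum p hp, cos_sum p hp, sum_ite_eq', if_pos (mem_range.mpr hp)]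
  ring

theorem sm_eq (p : ℕ) (hp : p.Prime) (h5 : 5 ≤ p) (b : ℤ) (hb : (p : ℤ) ∣ 3 * b - 1) (g : ℕ) :
    sm p g = ∑ a ∈ range p, cf p b a * Real.cos (2 * Real.pi * a * g / p) := by
  rw [sum_cf p hp.pos]
  have hP : Prime (p : ℤ) := Nat.prime_iff_prime_int.mp hp
  have hp3 : ¬ (p : ℤ) ∣ 3 := by
    intro h
    have h1 : (p : ℤ) ≤ 3 := Int.le_of_dvd (by norm_num) h
    omega
  have hp2 : ¬ (p : ℤ) ∣ 2 := by
    intro h
    have h1 : (p : ℤ) ≤ 2 := Int.le_of_dvd (by norm_num) h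
    omega
  have hp1 : ¬ (p : ℤ) ∣ 1 := by
    intro h
    have h1 : (p : ℤ) ≤ 1 := Int.le_of_dvd (by norm_num) h
    omega
  have hbn : ¬ (p : ℤ) ∣ b := by
    intro h
    apply hp1
    have h1 : (1 : ℤ) = 3 * b - (3 * b - 1) := by ring
    rw [h1]
    exact dvd_sub (Dvd.dvd.mul_left h 3) hb
  have hm2 : ((p : ℝ) - 2) ≠ 0 := by
    have : (5 : ℝ) ≤ p := by exact_mod_cast h5
    intro h
    linarith
  -- divisibility by 3
  have k1 : ((p : ℤ) ∣ (g : ℤ) - b) ↔ (p : ℤ) ∣ 3 * g - 1 := by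
    constructor
    · intro h
      have h1 : (3 * (g : ℤ) - 1) = 3 * ((g : ℤ) - b) + (3 * b - 1) := by ring
      rw [h1]
      exact dvd_add (Dvd.dvd.mul_left h 3) hb
    · intro h
      have h1 : 3 * ((g : ℤ) - b) = (3 * (g : ℤ) - 1) - (3 * b - 1) := by ring
      have h2 : (p : ℤ) ∣ 3 * ((g : ℤ) - b) := by
        rw [h1]
        exact dvd_sub h hb
      exact (hP.dvd_or_dvd h2).resolve_left hp3
  have k2 : ((p : ℤ) ∣ (g : ℤ) + b) ↔ (p : ℤ) ∣ 3 * g + 1 := by
    constructor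
    · intro h
      have h1 : (3 * (g : ℤ) + 1) = 3 * ((g : ℤ) + b) - (3 * b - 1) := by ring
      rw [h1]
      exact dvd_sub (Dvd.dvd.mul_left h 3) hb
    · intro h
      have h1 : 3 * ((g : ℤ) + b) = (3 * (g : ℤ) + 1) + (3 * b - 1) := by ring
      have h2 : (p : ℤ) ∣ 3 * ((g : ℤ) + b) := by
        rw [h1]
        exact dvd_add h hb
      exact (hP.dvd_or_dvd h2).resolve_left hp3
  unfold sm
  by_cases hg : p ∣ g
  · have hg' : (p : ℤ) ∣ (g : ℤ) := Int.natCast_dvd_natCast.mpr hg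
    have n1 : ¬ (p : ℤ) ∣ (g : ℤ) + b := fun h => hbn ((dvd_add_right hg').mp h)
    have n2 : ¬ (p : ℤ) ∣ (g : ℤ) - b := fun h => hbn ((dvd_sub_right hg').mp h)
    rw [if_pos hg, if_pos hg', if_neg n1, if_neg n2]
    field_simp
    ring
  · have hg' : ¬ (p : ℤ) ∣ (g : ℤ) := fun h => hg (Int.natCast_dvd_natCast.mp h)
    have hg1 : 1 ≤ g := by
      rcases Nat.eq_zero_or_pos g with h | h
      · exact absurd (h ▸ dvd_zero p) hg
      · exact h
    have c1 : p ∣ 3 * g - 1 ↔ (p : ℤ) ∣ (g : ℤ) - b := by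
      rw [k1, ← Int.natCast_dvd_natCast, Nat.cast_sub (by omega)]
      push_cast
      exact Iff.rfl
    have c2 : p ∣ 3 * g + 1 ↔ (p : ℤ) ∣ (g : ℤ) + b := by
      rw [k2, ← Int.natCast_dvd_natCast]
      push_cast
      exact Iff.rfl
    rw [if_neg hg, if_neg hg']
    by_cases h1 : (p : ℤ) ∣ (g : ℤ) - b
    · have h2 : ¬ (p : ℤ) ∣ (g : ℤ) + b := by
        intro h
        have h3 : (p : ℤ) ∣ 2 * b := by
          have e1 : 2 * b = ((g : ℤ) + b) - ((g : ℤ) - b) := by ring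
          rw [e1]
          exact dvd_sub h h1
        rcases hP.dvd_or_dvd h3 with h4 | h4
        · exact hp2 h4
        · exact hbn h4
      rw [if_pos (Or.inl (c1.mpr h1)), if_neg h2, if_pos h1]
      ring
    · by_cases h2 : (p : ℤ) ∣ (g : ℤ) + b
      · rw [if_pos (Or.inr (c2.mpr h2)), if_pos h2, if_neg h1]
        ring
      · rw [if_neg, if_neg h2, if_neg h1]
        · ring
        · rintro (h | h)
          · exact h1 (c1.mp h)
          · exact h2 (c2.mp h)

theorem gSIG : G_SIG := by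
  intro p hp h5
  obtain ⟨b, hb⟩ : ∃ b : ℤ, (p : ℤ) ∣ 3 * b - 1 := by
    have hc : IsCoprime (3 : ℤ) (p : ℤ) := by
      have h3 : Nat.Coprime 3 p := by
        rw [Nat.coprime_primes Nat.prime_three hp]
        omega
      exact Nat.isCoprime_iff_coprime.mpr h3
    obtain ⟨u, v, huv⟩ := hc
    refine ⟨u, -v, ?_⟩
    linear_combination huv
  have hsm := sm_eq p hp h5 b hb
  obtain ⟨n, hn⟩ : ∃ n, p = n + 1 := ⟨p - 1, by omega⟩
  refine ⟨⟨Fin n, inferInstance, fun i => cf p b (i + 1), fun i => (i : ℤ) + 1,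
    fun i => cf_nonneg _ _ _, ?_, ?_⟩, ⟨Fin p, inferInstance,
    fun i => 4 / ((p : ℝ) - 2) ^ 2 - cf p b i, fun i => 2 * Real.pi * i / p,
    fun i => sub_nonneg.mpr (cf_le _ _ _), ?_⟩⟩
  · intro i
    have h1 : Nat.Coprime ((i : ℕ) + 1) p := by
      rw [Nat.coprime_comm]
      refine (Nat.Prime.coprime_iff_not_dvd hp).mpr ?_
      intro h
      have := Nat.le_of_dvd (Nat.succ_pos _) h
      have := i.isLt
      omega
    have h2 := Nat.isCoprime_iff_coprime.mpr h1
    push_cast at h2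
    exact h2
  · intro g
    rw [hsm g]
    have e1 : ∑ a ∈ range p, cf p b a * Real.cos (2 * Real.pi * a * g / p) =
        ∑ a ∈ range (n + 1), cf p b a * Real.cos (2 * Real.pi * a * g / p) := by
      rw [← hn]
    rw [e1, sum_range_succ', ← Fin.sum_univ_eq_sum_range
      (fun a => cf p b (a + 1) * Real.cos (2 * Real.pi * ((a + 1 : ℕ) : ℝ) * g / p)) n]
    have e2 : cf p b 0 = 0 := by
      unfold cf
      rw [if_pos rfl]
    rw [e2, zero_mul, add_zero]
    refine sum_congr rfl fun i _ => ?_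
    push_cast
    rfl
  · intro g
    have e1 : (if p ∣ g then 4 * (p : ℝ) / ((p : ℝ) - 2) ^ 2 else 0) =
        4 / ((p : ℝ) - 2) ^ 2 * ∑ a ∈ range p, Real.cos (2 * Real.pi * a * ((g : ℤ) : ℝ) / p) := by
      rw [cos_sum p hp.pos]
      by_cases h : p ∣ g
      · rw [if_pos h, if_pos (Int.natCast_dvd_natCast.mpr h)]
        ring
      · rw [if_neg h, if_neg (fun h' => h (Int.natCast_dvd_natCast.mp h')), mul_zero]
    beta_reduce
    rw [e1, hsm g, mul_sum, ← sum_sub_distrib, ← Fin.sum_univ_eq_sum_range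
      (fun a => 4 / ((p : ℝ) - 2) ^ 2 * Real.cos (2 * Real.pi * (a : ℝ) * ((g : ℤ) : ℝ) / p) -
        cf p b a * Real.cos (2 * Real.pi * (a : ℝ) * g / p)) p]
    refine sum_congr rfl fun i _ => ?_
    have e3 : 2 * Real.pi * ((i : ℕ) : ℝ) * ((g : ℤ) : ℝ) / p =
        2 * Real.pi * ((i : ℕ) : ℝ) / p * g := by
      push_cast
      ring
    have e4 : 2 * Real.pi * ((i : ℕ) : ℝ) * (g : ℝ) / p =
        2 * Real.pi * ((i : ℕ) : ℝ) / p * g := by ring
    rw [e3, e4]
    ring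

end Pool.Agent.Helper13.TB
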