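import Pool.Agent.Helper76.TB.GoalsT

/-!
# Project TB (MP_74f661_nt), packet U-WAV: the weighted mean
-/

set_option autoImplicit false

open Finset Filter Topology

namespace Pool.Agent.Helper13.TB.Wav

open Pool.Agent.Helper90.Twin (Ps Gz Gz_pos Gz_le_one)
open Pool.Agent.Helper60.BFT (len mT)
open Pool.Agent.Helper76.TB

theorem log16 : Real.exp 1 ≤ Real.log 16 := by
  have h1 : Real.log 16 = 4 * Real.log 2 := by
    rw [show (16 : ℝ) = 2 ^ 4 by norm_num, Real.log_pow]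
    norm_num
  have h2 := Real.log_two_gt_d9
  have h3 := Real.exp_one_lt_d9
  rw [h1]
  linarith

theorem log_ge {r : ℕ} (h : 16 ≤ r) : Real.exp 1 ≤ Real.log r := by
  refine log16.trans ?_
  apply Real.log_le_log (by norm_num)
  exact_mod_cast h

theorem log_pos' {r : ℕ} (h : 16 ≤ r) : 0 < Real.log r :=
  (Real.exp_pos 1).trans_le (log_ge h)

theorem l2_ge {r : ℕ} (h : 16 ≤ r) : 1 ≤ l2 r := by
  unfold l2
  rw [Real.le_log_iff_exp_le (log_pos' h)]
  exact log_ge h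

theorem l2_mono {r s : ℕ} (h : 16 ≤ r) (hrs : r ≤ s) : l2 r ≤ l2 s := by
  unfold l2
  apply Real.log_le_log (log_pos' h)
  apply Real.log_le_log
  · have : 0 < r := by omega
    exact_mod_cast this
  · exact_mod_cast hrs

theorem vv_nonneg (r : ℕ) : 0 ≤ vv r := sq_nonneg _

theorem vv_pos {r : ℕ} (h : 16 ≤ r) : 0 < vv r := by
  have h1 := l2_ge h
  have h2 := log_pos' h
  unfold vv
  positivity

theorem vv_anti {r s : ℕ} (h : 16 ≤ r) (hrs : r ≤ s) : vv s ≤ vv r := by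
  have hs : 16 ≤ s := h.trans hrs
  have h1 : Real.log r ≤ Real.log s := by
    apply Real.log_le_log
    · have : 0 < r := by omega
      exact_mod_cast this
    · exact_mod_cast hrs
  have h2 := Real.log_div_self_antitoneOn (show Real.log r ∈ {x | Real.exp 1 ≤ x} from log_ge h)
    (show Real.log s ∈ {x | Real.exp 1 ≤ x} from log_ge hs) h1
  have h3 : 0 ≤ l2 s / Real.log s :=
    div_nonneg (zero_le_one.trans (l2_ge hs)) (log_pos' hs).le
  unfold vv
  exact pow_le_pow_left₀ h3 h2 2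

theorem vv_up {ε : ℝ} (h0 : 0 < ε) (h1 : ε < 1) {r R : ℕ} (hr : 16 ≤ r) (hrR : r ≤ R)
    (h : (R : ℝ) ^ (1 - ε) ≤ r) : vv r ≤ 1 / (1 - ε) ^ 2 * vv R := by
  have hR : 16 ≤ R := hr.trans hrR
  have hR0 : (0 : ℝ) < R := by
    have : 0 < R := by omega
    exact_mod_cast this
  have h2 : (1 - ε) * Real.log R ≤ Real.log r := by
    rw [← Real.log_rpow hR0]
    exact Real.log_le_log (Real.rpow_pos_of_pos hR0 _) h
  have h3 := l2_mono hr hrR
  have h4 : 0 < (1 - ε) * Real.log R := mul_pos (by linarith) (log_pos' hR)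
  have h5 : l2 r / Real.log r ≤ l2 R / ((1 - ε) * Real.log R) :=
    div_le_div₀ (zero_le_one.trans (l2_ge hR)) h3 h4 h2
  have h6 : 0 ≤ l2 r / Real.log r :=
    div_nonneg (zero_le_one.trans (l2_ge hr)) (log_pos' hr).le
  have h7 := pow_le_pow_left₀ h6 h5 2
  unfold vv
  refine h7.trans (le_of_eq ?_)
  rw [div_pow, div_pow, mul_pow]
  field_simp

theorem mT_nonneg (Z : ℕ → ℕ) (r : ℕ) : 0 ≤ mT 4 Z r := by
  unfold mT
  have := Gz_pos (Z (r ^ 4))
  positivity

theorem mT_le (Z : ℕ → ℕ) (r : ℕ) : mT 4 Z r ≤ len 4 r := by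
  unfold mT
  have h1 := Gz_pos (Z (r ^ 4))
  have h2 := Gz_le_one (Z (r ^ 4))
  have h3 : (0 : ℝ) ≤ len 4 r := Nat.cast_nonneg _
  have h4 : (len 4 r : ℝ) * Gz (Z (r ^ 4)) ≤ len 4 r * 1 := mul_le_mul_of_nonneg_left h2 h3
  linarith

theorem sum_len (n : ℕ) : ∑ r ∈ range n, (len 4 r : ℝ) = (n : ℝ) ^ 4 := by
  induction n with
  | zero => simp
  | succ n ih =>
    rw [sum_range_succ, ih]
    unfold len
    rw [Nat.cast_sub (Nat.pow_le_pow_left (Nat.le_succ n) 4)]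
    push_cast
    ring

theorem WW_eq (Z : ℕ → ℕ) (R : ℕ) : WW Z R = ∑ r ∈ range R, mT 4 Z r := rfl

/-- the weighted sum of the rates -/
noncomputable def SS (Z : ℕ → ℕ) (R : ℕ) : ℝ := ∑ r ∈ range R, mT 4 Z r * vv r

theorem SS_lower (Z : ℕ → ℕ) {R : ℕ} (hR : 16 ≤ R) :
    vv R * (WW Z R - WW Z 16) ≤ SS Z R := by
  have h1 : SS Z R = ∑ r ∈ range 16, mT 4 Z r * vv r + ∑ r ∈ Ico 16 R, mT 4 Z r * vv r :=
    (sum_range_add_sum_Ico _ hR).symm
  have h2 : WW Z R = WW Z 16 + ∑ r ∈ Ico 16 R, mT 4 Z r := (sum_range_add_sum_Ico _ hR).symm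
  have h3 : 0 ≤ ∑ r ∈ range 16, mT 4 Z r * vv r :=
    sum_nonneg fun r _ => mul_nonneg (mT_nonneg Z r) (vv_nonneg r)
  have h4 : vv R * ∑ r ∈ Ico 16 R, mT 4 Z r ≤ ∑ r ∈ Ico 16 R, mT 4 Z r * vv r := by
    rw [mul_sum]
    refine sum_le_sum fun r hr => ?_
    rw [mem_Ico] at hr
    rw [mul_comm]
    exact mul_le_mul_of_nonneg_left (vv_anti hr.1 hr.2.le) (mT_nonneg Z r)
  rw [h2, add_sub_cancel_left, h1]
  linarith

theorem SS_upper (Z : ℕ → ℕ) {ε : ℝ} (h0 : 0 < ε) (h1 : ε < 1) {R : ℕ} (hR : 16 ≤ R) :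
    SS Z R ≤ SS Z 16 + 1 / (1 - ε) ^ 2 * (vv R * WW Z R) +
      vv 16 * ((R : ℝ) ^ (1 - ε) + 1) ^ 4 := by
  have e1 : SS Z R = SS Z 16 + ∑ r ∈ Ico 16 R, mT 4 Z r * vv r :=
    (sum_range_add_sum_Ico _ hR).symm
  set x : ℝ := (R : ℝ) ^ (1 - ε) with hx
  have hx0 : 0 ≤ x := Real.rpow_nonneg (Nat.cast_nonneg _) _
  set κ : ℝ := 1 / (1 - ε) ^ 2 with hκ
  have hκ0 : 0 ≤ κ := by positivity
  have e2 : ∑ r ∈ Ico 16 R, mT 4 Z r * vv r ≤
      ∑ r ∈ Ico 16 R, (mT 4 Z r * (κ * vv R) + if r < ⌈x⌉₊ then vv 16 * len 4 r else 0) := by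
    refine sum_le_sum fun r hr => ?_
    rw [mem_Ico] at hr
    have m0 := mT_nonneg Z r
    have m1 := mT_le Z r
    by_cases h : r < ⌈x⌉₊
    · rw [if_pos h]
      have h2 : mT 4 Z r * vv r ≤ vv 16 * len 4 r := by
        rw [mul_comm (vv 16)]
        exact mul_le_mul m1 (vv_anti le_rfl hr.1) (vv_nonneg r) (Nat.cast_nonneg _)
      have h3 : 0 ≤ mT 4 Z r * (κ * vv R) := mul_nonneg m0 (mul_nonneg hκ0 (vv_nonneg R))
      linarith
    · rw [if_neg h, add_zero]
      refine mul_le_mul_of_nonneg_left ?_ m0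
      have h2 : x ≤ r := by
        rw [not_lt] at h
        exact Nat.le_of_ceil_le h
      exact vv_up h0 h1 hr.1 hr.2.le h2
  have e3 : ∑ r ∈ Ico 16 R, mT 4 Z r * (κ * vv R) ≤ κ * (vv R * WW Z R) := by
    rw [← sum_mul, WW_eq]
    have h2 : ∑ r ∈ Ico 16 R, mT 4 Z r ≤ ∑ r ∈ range R, mT 4 Z r := by
      refine sum_le_sum_of_subset_of_nonneg ?_ (fun r _ _ => mT_nonneg Z r)
      intro r hr
      rw [mem_Ico] at hr
      exact mem_range.mpr hr.2
    calc (∑ r ∈ Ico 16 R, mT 4 Z r) * (κ * vv R)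
        ≤ (∑ r ∈ range R, mT 4 Z r) * (κ * vv R) :=
          mul_le_mul_of_nonneg_right h2 (mul_nonneg hκ0 (vv_nonneg R))
      _ = _ := by ring
  have e4 : ∑ r ∈ Ico 16 R, (if r < ⌈x⌉₊ then vv 16 * (len 4 r : ℝ) else 0) ≤
      vv 16 * (x + 1) ^ 4 := by
    rw [← sum_filter]
    have h2 : ∑ r ∈ (Ico 16 R).filter (fun r => r < ⌈x⌉₊), vv 16 * (len 4 r : ℝ) ≤
        ∑ r ∈ range ⌈x⌉₊, vv 16 * (len 4 r : ℝ) := by
      refine sum_le_sum_of_subset_of_nonneg ?_
        (fun r _ _ => mul_nonneg (vv_nonneg 16) (Nat.cast_nonneg _))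
      intro r hr
      exact mem_range.mpr (mem_filter.mp hr).2
    refine h2.trans ?_
    rw [← mul_sum, sum_len]
    refine mul_le_mul_of_nonneg_left ?_ (vv_nonneg 16)
    exact pow_le_pow_left₀ (Nat.cast_nonneg _) (Nat.ceil_lt_add_one hx0).le 4
  rw [e1]
  rw [sum_add_distrib] at e2
  linarith

/-- the limit of `u` -/
theorem u_lim (h1 : COREG) (c : ℝ) (hc : 0 < c) (Z : ℕ → ℕ) (hZ : CutL c Z) :
    Tendsto (fun r : ℕ => (Real.log r / l2 r) ^ 2 * DD (Z (r ^ 4))) atTop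
      (𝓝 (-Real.exp (-2 * Real.eulerMascheroniConstant) / (16 * c ^ 2))) := by
  have hlogN : Tendsto (fun r : ℕ => Real.log r) atTop atTop :=
    Real.tendsto_log_atTop.comp tendsto_natCast_atTop_atTop
  have hl2N : Tendsto (fun r : ℕ => l2 r) atTop atTop := Real.tendsto_log_atTop.comp hlogN
  have hp4 : Tendsto (fun r : ℕ => r ^ 4) atTop atTop := tendsto_pow_atTop (by norm_num)
  have hr1 : Tendsto (fun r : ℕ => Real.log (Z (r ^ 4)) / Real.log r) atTop (𝓝 (4 * c)) := by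
    have h2 := (hZ.lim.comp hp4).const_mul 4
    refine h2.congr' ?_
    filter_upwards [eventually_ge_atTop 16] with r hr
    have h3 := log_pos' hr
    simp only [Function.comp_apply]
    push_cast
    rw [Real.log_pow]
    push_cast
    field_simp
  have hzlog : Tendsto (fun r : ℕ => Real.log (Z (r ^ 4))) atTop atTop := by
    have h2 : Tendsto (fun r : ℕ => Real.log (Z (r ^ 4)) / Real.log r * Real.log r) atTop atTop :=
      Tendsto.pos_mul_atTop (by positivity : 0 < 4 * c) hr1 hlogN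
    refine h2.congr' ?_
    filter_upwards [eventually_ge_atTop 16] with r hr
    have h3 := log_pos' hr
    field_simp
  have hzr : Tendsto (fun r : ℕ => (Z (r ^ 4) : ℝ)) atTop atTop := by
    refine tendsto_atTop_mono (fun r => ?_) hzlog
    exact Real.log_le_self (Nat.cast_nonneg _)
  have hz : Tendsto (fun r : ℕ => Z (r ^ 4)) atTop atTop := tendsto_natCast_atTop_iff.mp hzr
  have hcore := h1.comp hz
  have hl2z : Tendsto (fun r : ℕ => l2 (Z (r ^ 4)) / l2 r) atTop (𝓝 1) := by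
    have h2 : Tendsto (fun r : ℕ => 1 + Real.log (Real.log (Z (r ^ 4)) / Real.log r) / l2 r) atTop
        (𝓝 (1 + 0)) := by
      refine tendsto_const_nhds.add ?_
      have h3 : Tendsto (fun r : ℕ => Real.log (Real.log (Z (r ^ 4)) / Real.log r)) atTop
          (𝓝 (Real.log (4 * c))) := hr1.log (by positivity)
      exact h3.div_atTop hl2N
    rw [add_zero] at h2
    refine h2.congr' ?_
    filter_upwards [eventually_ge_atTop 16, hzlog.eventually_gt_atTop 0] with r hr hz0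
    have h3 := log_pos' hr
    have h4 : 0 < l2 r := zero_lt_one.trans_le (l2_ge hr)
    rw [Real.log_div hz0.ne' h3.ne']
    have h5 : Real.log (Real.log (Z (r ^ 4))) = l2 (Z (r ^ 4)) := rfl
    have h6 : Real.log (Real.log (r : ℝ)) = l2 r := rfl
    rw [h5, h6]
    field_simp
    ring
  have h4c : (4 * c) ≠ 0 := by positivity
  have hfin := (hcore.mul ((hr1.inv₀ h4c).pow 2)).mul (hl2z.pow 2)
  have e : -Real.exp (-2 * Real.eulerMascheroniConstant) * ((4 * c)⁻¹) ^ 2 * 1 ^ 2 =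
      -Real.exp (-2 * Real.eulerMascheroniConstant) / (16 * c ^ 2) := by
    field_simp
    norm_num
  rw [← e]
  refine hfin.congr' ?_
  have hl2z' : Tendsto (fun r : ℕ => l2 (Z (r ^ 4))) atTop atTop :=
    Real.tendsto_log_atTop.comp hzlog
  filter_upwards [eventually_ge_atTop 16, hzlog.eventually_gt_atTop 0,
    hl2z'.eventually_gt_atTop 0] with r hr hz0 hz1
  have h3 := log_pos' hr
  have h4 : 0 < l2 r := zero_lt_one.trans_le (l2_ge hr)
  simp only [Function.comp_apply]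
  field_simp

/-- the main terms tend to infinity faster than the rate tends to zero -/
theorem low (h2 : LOW2G) (Z : ℕ → ℕ) (hZ : ∀ n, Z n ≤ n) : ∃ c' : ℝ, 0 < c' ∧ ∀ᶠ R : ℕ in atTop,
    c' * ((R : ℝ) ^ 4 / Real.log R ^ 4) ≤ vv R * WW Z R := by
  obtain ⟨c', hc', h⟩ := h2 Z hZ
  refine ⟨c', hc', ?_⟩
  filter_upwards [h, eventually_ge_atTop 16] with R hR h16
  have h3 := log_pos' h16
  have h4 := l2_ge h16
  have h5 : 1 / Real.log R ^ 2 ≤ vv R := by
    unfold vv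
    rw [div_pow]
    exact div_le_div_of_nonneg_right (by nlinarith) (by positivity)
  have h6 : 0 ≤ c' * ((R : ℝ) ^ 4 / Real.log R ^ 2) := by positivity
  calc c' * ((R : ℝ) ^ 4 / Real.log R ^ 4)
      = 1 / Real.log R ^ 2 * (c' * ((R : ℝ) ^ 4 / Real.log R ^ 2)) := by
        field_simp
    _ ≤ vv R * (c' * ((R : ℝ) ^ 4 / Real.log R ^ 2)) := mul_le_mul_of_nonneg_right h5 h6
    _ ≤ vv R * WW Z R := mul_le_mul_of_nonneg_left hR (vv_nonneg R)

theorem pow_log : Tendsto (fun R : ℕ => (R : ℝ) ^ 4 / Real.log R ^ 4) atTop atTop := by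
  have h1 : Tendsto (fun x : ℝ => x / Real.log x) atTop atTop := by
    have h2 := Real.isLittleO_log_id_atTop
    have h3 : Tendsto (fun x : ℝ => Real.log x / x) atTop (𝓝 0) := h2.tendsto_div_nhds_zero
    have h4 : Tendsto (fun x : ℝ => (Real.log x / x)⁻¹) atTop atTop := by
      refine Tendsto.inv_tendsto_nhdsGT_zero ?_
      refine tendsto_nhdsWithin_iff.mpr ⟨h3, ?_⟩
      filter_upwards [eventually_gt_atTop 1] with x hx
      have := Real.log_pos hx
      exact div_pos this (by linarith)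
    refine h4.congr fun x => ?_
    rw [inv_div]
  have h5 := (tendsto_pow_atTop (n := 4) (by norm_num)).comp
    (h1.comp tendsto_natCast_atTop_atTop)
  refine h5.congr fun R => ?_
  simp only [Function.comp_apply, div_pow]

theorem VW_top (h2 : LOW2G) (Z : ℕ → ℕ) (hZ : ∀ n, Z n ≤ n) :
    Tendsto (fun R : ℕ => vv R * WW Z R) atTop atTop := by
  obtain ⟨c', hc', h⟩ := low h2 Z hZ
  exact tendsto_atTop_mono' _ h (pow_log.const_mul_atTop hc')

theorem W_top (h2 : LOW2G) (Z : ℕ → ℕ) (hZ : ∀ n, Z n ≤ n) :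
    Tendsto (fun R : ℕ => WW Z R) atTop atTop := by
  have h3 := VW_top h2 Z hZ
  have h4 : ∀ᶠ R : ℕ in atTop, vv R * WW Z R ≤ vv 16 * WW Z R := by
    filter_upwards [eventually_ge_atTop 16] with R hR
    exact mul_le_mul_of_nonneg_right (vv_anti le_rfl hR)
      (sum_nonneg fun r _ => mT_nonneg Z r)
  have h5 := tendsto_atTop_mono' _ h4 h3
  have h6 : (0 : ℝ) < vv 16 := vv_pos le_rfl
  have h7 := h5.const_mul_atTop (inv_pos.mpr h6)
  refine h7.congr fun R => ?_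
  rw [← mul_assoc, inv_mul_cancel₀ h6.ne', one_mul]

/-- `SS / (vv * WW) → 1` -/
theorem SS_lim (h2 : LOW2G) (Z : ℕ → ℕ) (hZ : ∀ n, Z n ≤ n) :
    Tendsto (fun R : ℕ => SS Z R / (vv R * WW Z R)) atTop (𝓝 1) := by
  obtain ⟨c', hc', hlow⟩ := low h2 Z hZ
  have hVW := VW_top h2 Z hZ
  have hW := W_top h2 Z hZ
  rw [Metric.tendsto_atTop']
  intro δ hδ
  -- choice of ε
  obtain ⟨ε, hε0, hε1, hε⟩ : ∃ ε : ℝ, 0 < ε ∧ ε < 1 ∧ 1 / (1 - ε) ^ 2 < 1 + δ / 4 := by
    have h3 : Tendsto (fun ε : ℝ => 1 / (1 - ε) ^ 2) (𝓝 0) (𝓝 (1 / (1 - 0) ^ 2)) := by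
      refine Tendsto.div tendsto_const_nhds ((tendsto_const_nhds.sub tendsto_id).pow 2) ?_
      norm_num
    have h4 : ∀ᶠ ε in 𝓝 (0 : ℝ), 1 / (1 - ε) ^ 2 < 1 + δ / 4 := by
      refine h3.eventually_lt_const ?_
      norm_num
      linarith
    have h5 := (h4.filter_mono (nhdsWithin_le_nhds (s := Set.Ioi 0))).and
      (Ioo_mem_nhdsGT (show (0 : ℝ) < 1 by norm_num))
    obtain ⟨ε, h6, h7⟩ := h5.exists
    exact ⟨ε, h7.1, h7.2, h6⟩
  set κ : ℝ := 1 / (1 - ε) ^ 2 with hκ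
  -- choice of η
  set A : ℝ := 16 * vv 16 / c' with hA
  have hv16 : (0 : ℝ) < vv 16 := vv_pos le_rfl
  have hA0 : 0 < A := by positivity
  obtain ⟨η, hη0, hη⟩ : ∃ η : ℝ, 0 < η ∧ A * η ^ 4 ≤ δ / 4 := by
    have h3 : Tendsto (fun η : ℝ => A * η ^ 4) (𝓝 0) (𝓝 (A * 0 ^ 4)) :=
      tendsto_const_nhds.mul (tendsto_id.pow 4)
    have h4 : ∀ᶠ η in 𝓝 (0 : ℝ), A * η ^ 4 < δ / 4 := by
      refine h3.eventually_lt_const ?_
      norm_num
      exact hδ
    have h5 := (h4.filter_mono (nhdsWithin_le_nhds (s := Set.Ioi 0))).and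
      (self_mem_nhdsWithin (a := (0 : ℝ)) (s := Set.Ioi 0))
    obtain ⟨η, h6, h7⟩ := h5.exists
    exact ⟨η, h7, h6.le⟩
  have hlogε : ∀ᶠ R : ℕ in atTop, Real.log R ≤ η * (R : ℝ) ^ ε := by
    have h3 := (isLittleO_log_rpow_atTop hε0).def hη0
    have h4 := tendsto_natCast_atTop_atTop.eventually h3
    filter_upwards [h4, eventually_ge_atTop 16] with R hR hR16
    rw [Real.norm_of_nonneg (log_pos' hR16).le,
      Real.norm_of_nonneg (Real.rpow_nonneg (Nat.cast_nonneg _) _)] at hR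
    exact hR
  have hev : ∀ᶠ R : ℕ in atTop, dist (SS Z R / (vv R * WW Z R)) 1 < δ := by
    filter_upwards [hlow, hlogε, eventually_ge_atTop 16,
      hVW.eventually_ge_atTop (4 * SS Z 16 / δ + 1), hW.eventually_ge_atTop (2 * WW Z 16 / δ + 1)]
      with R g1 g2 g3 g4 g5
    have hS16 : 0 ≤ SS Z 16 := sum_nonneg fun r _ => mul_nonneg (mT_nonneg Z r) (vv_nonneg r)
    have hW16 : 0 ≤ WW Z 16 := sum_nonneg fun r _ => mT_nonneg Z r
    have hP : 0 < vv R * WW Z R := by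
      have : 0 ≤ 4 * SS Z 16 / δ := by positivity
      linarith
    have hWR : 0 < WW Z R := by
      have : 0 ≤ 2 * WW Z 16 / δ := by positivity
      linarith
    have hvR := vv_pos g3
    have hR0 : (0 : ℝ) < R := by
      have : 0 < R := by omega
      exact_mod_cast this
    have hR1 : (1 : ℝ) ≤ R := by
      have : 1 ≤ R := by omega
      exact_mod_cast this
    have lo := SS_lower Z g3
    have up := SS_upper Z hε0 hε1 g3
    rw [← hκ] at up
    -- the error terms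
    have t1 : SS Z 16 ≤ δ / 4 * (vv R * WW Z R) := by
      have h3 : 4 * SS Z 16 / δ ≤ vv R * WW Z R := by linarith
      rw [div_le_iff₀ hδ] at h3
      linarith
    have t2 : vv 16 * ((R : ℝ) ^ (1 - ε) + 1) ^ 4 ≤ δ / 4 * (vv R * WW Z R) := by
      have h3 : 1 ≤ (R : ℝ) ^ (1 - ε) := Real.one_le_rpow hR1 (by linarith)
      have h4 : ((R : ℝ) ^ (1 - ε) + 1) ^ 4 ≤ 16 * ((R : ℝ) ^ (1 - ε)) ^ 4 := by
        have h5 : (R : ℝ) ^ (1 - ε) + 1 ≤ 2 * (R : ℝ) ^ (1 - ε) := by linarith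
        calc ((R : ℝ) ^ (1 - ε) + 1) ^ 4 ≤ (2 * (R : ℝ) ^ (1 - ε)) ^ 4 :=
              pow_le_pow_left₀ (by linarith) h5 4
          _ = _ := by ring
      have hlogR := log_pos' g3
      have h6 : (R : ℝ) ^ (1 - ε) ≤ η * R / Real.log R := by
        rw [Real.rpow_sub hR0, Real.rpow_one, div_le_div_iff₀ (Real.rpow_pos_of_pos hR0 _) hlogR]
        have h7 := mul_le_mul_of_nonneg_left g2 hR0.le
        linarith
      have h8 : ((R : ℝ) ^ (1 - ε)) ^ 4 ≤ η ^ 4 * ((R : ℝ) ^ 4 / Real.log R ^ 4) := by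
        calc ((R : ℝ) ^ (1 - ε)) ^ 4 ≤ (η * R / Real.log R) ^ 4 :=
              pow_le_pow_left₀ (by linarith) h6 4
          _ = _ := by rw [div_pow, mul_pow]; ring
      have h9 : (R : ℝ) ^ 4 / Real.log R ^ 4 ≤ (vv R * WW Z R) / c' := by
        rw [le_div_iff₀ hc']
        linarith
      calc vv 16 * ((R : ℝ) ^ (1 - ε) + 1) ^ 4
          ≤ vv 16 * (16 * (η ^ 4 * ((vv R * WW Z R) / c'))) := by
            refine mul_le_mul_of_nonneg_left (h4.trans ?_) hv16.le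
            refine mul_le_mul_of_nonneg_left (h8.trans ?_) (by norm_num)
            exact mul_le_mul_of_nonneg_left h9 (by positivity)
        _ = (A * η ^ 4) * (vv R * WW Z R) := by rw [hA]; field_simp
        _ ≤ δ / 4 * (vv R * WW Z R) := mul_le_mul_of_nonneg_right hη hP.le
    have t3 : WW Z 16 ≤ δ / 2 * WW Z R := by
      have h3 : 2 * WW Z 16 / δ ≤ WW Z R := by linarith
      rw [div_le_iff₀ hδ] at h3
      linarith
    rw [Real.dist_eq, abs_lt]
    constructor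
    · rw [lt_sub_iff_add_lt, lt_div_iff₀ hP]
      have h3 : vv R * WW Z 16 ≤ δ / 2 * (vv R * WW Z R) := by
        have := mul_le_mul_of_nonneg_left t3 hvR.le
        linarith
      have h4 : 0 < δ / 2 * (vv R * WW Z R) := by positivity
      nlinarith
    · rw [sub_lt_iff_lt_add, div_lt_iff₀ hP]
      have h3 : κ * (vv R * WW Z R) ≤ (1 + δ / 4) * (vv R * WW Z R) :=
        mul_le_mul_of_nonneg_right hε.le hP.le
      have h4 : 0 < δ / 4 * (vv R * WW Z R) := by positivity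
      nlinarith
  obtain ⟨N, hN⟩ := eventually_atTop.mp hev
  exact ⟨N, fun n hn => hN n hn.le⟩

end Pool.Agent.Helper13.TB.Wav

namespace Pool.Agent.Helper13.TB

open Pool.Agent.Helper60.BFT (len mT)
open Pool.Agent.Helper76.TB Wav

theorem wav (h1 : COREG) (h2 : LOW2G) : Pool.Agent.Helper76.TB.WAVG := by
  intro c hc Z hZ
  set l : ℝ := -Real.exp (-2 * Real.eulerMascheroniConstant) / (16 * c ^ 2) with hl
  have hu := u_lim h1 c hc Z hZ
  have hS1 := SS_lim h2 Z hZ.le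
  have hVW := VW_top h2 Z hZ.le
  have hStop : Tendsto (fun R : ℕ => SS Z R) atTop atTop := by
    have h3 := Tendsto.pos_mul_atTop zero_lt_one hS1 hVW
    refine h3.congr' ?_
    filter_upwards [hVW.eventually_gt_atTop 0] with R hR
    rw [div_mul_cancel₀ _ hR.ne']
  -- the weighted mean
  have hlo : (fun r : ℕ => mT 4 Z r * DD (Z (r ^ 4)) - l * (mT 4 Z r * vv r)) =o[atTop]
      (fun r : ℕ => mT 4 Z r * vv r) := by
    rw [Asymptotics.isLittleO_iff]
    intro ε hε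
    have h3 := (Metric.tendsto_atTop.mp hu) ε hε
    obtain ⟨N, hN⟩ := h3
    filter_upwards [eventually_ge_atTop N, eventually_ge_atTop 16] with r hr hr16
    have h4 := hN r hr
    rw [Real.dist_eq] at h4
    have hv := vv_pos hr16
    have hm := mT_nonneg Z r
    have h5 : DD (Z (r ^ 4)) = ((Real.log r / l2 r) ^ 2 * DD (Z (r ^ 4))) * vv r := by
      unfold vv
      have h6 := log_pos' hr16
      have h7 : 0 < l2 r := zero_lt_one.trans_le (l2_ge hr16)
      field_simp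
    have h8 : mT 4 Z r * DD (Z (r ^ 4)) - l * (mT 4 Z r * vv r) =
        ((Real.log r / l2 r) ^ 2 * DD (Z (r ^ 4)) - l) * (mT 4 Z r * vv r) := by
      calc mT 4 Z r * DD (Z (r ^ 4)) - l * (mT 4 Z r * vv r)
          = mT 4 Z r * (((Real.log r / l2 r) ^ 2 * DD (Z (r ^ 4))) * vv r) -
            l * (mT 4 Z r * vv r) := by rw [← h5]
        _ = _ := by ring
    rw [h8, norm_mul]
    exact mul_le_mul_of_nonneg_right h4.le (norm_nonneg _)
  have hsum := hlo.sum_range (fun r => mul_nonneg (mT_nonneg Z r) (vv_nonneg r)) hStop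
  have hsum0 := hsum.tendsto_div_nhds_zero
  have hmean : Tendsto (fun R : ℕ => (∑ r ∈ range R, mT 4 Z r * DD (Z (r ^ 4))) / SS Z R) atTop
      (𝓝 l) := by
    have h3 := hsum0.add (tendsto_const_nhds (x := l))
    rw [zero_add] at h3
    refine h3.congr' ?_
    filter_upwards [hStop.eventually_gt_atTop 0] with R hR
    have h4 : ∑ r ∈ range R, mT 4 Z r * vv r = SS Z R := rfl
    rw [sum_sub_distrib, ← mul_sum, h4]
    field_simp
    ring
  have hfin := hmean.mul hS1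
  rw [mul_one] at hfin
  refine hfin.congr' ?_
  filter_upwards [hVW.eventually_gt_atTop 0, hStop.eventually_gt_atTop 0,
    eventually_ge_atTop 16] with R g1 g2 g3
  have hv := vv_pos g3
  have hW : 0 < WW Z R := by
    by_contra h
    rw [not_lt] at h
    nlinarith
  have h6 := log_pos' g3
  have h7 : 0 < l2 R := zero_lt_one.trans_le (l2_ge g3)
  unfold DW
  have h8 : (Real.log R / l2 R) ^ 2 = (vv R)⁻¹ := by
    unfold vv
    rw [← inv_pow, inv_div]
  rw [h8]
  field_simp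

end Pool.Agent.Helper13.TB
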